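import Pool.Agent.W685.RT.Head

/-!
RT-6: a nonzero vector has large heads.
-/

set_option autoImplicit false

noncomputable section

namespace Pool.Agent.W685.RT

open Finset

namespace Par

variable (R : Par)

lemma lt_of_m_lt {p q : ℕ} (h : p < q) : R.v (p + 1) ≤ R.v q := R.v_mono (by omega)

/-- the back references into the stage `q`, seen from the stage `q + 1` -/
lemma cf_succ {q : ℕ} (hl : ∀ q', R.l q' ≠ q + 1) {k : ℕ} (hk1 : R.v q < k)
    (hk2 : k ≤ R.v (q + 1)) (i : ℕ) :
    R.cf (q + 1) i k = (if i = k then R.al k else 0)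
      - (if i = R.m q + k then (if R.h q ≤ k ∧ k ≤ R.m q then R.sg (R.m q + k) else 0) else 0) := by
  have hm1 : R.v (q + 1) < R.a (q + 1) := R.v_lt_a (q + 1)
  have hm2 : R.a (q + 1) ≤ R.m (q + 1) := R.a_le_m (q + 1)
  have hv1 := R.v_succ' q
  unfold cf
  by_cases c1 : i ≤ R.m (q + 1)
  · rw [if_pos c1]
    have e1 : (if k = i then R.al i else 0) = (if i = k then R.al k else 0) := by
      by_cases h : i = k
      · subst h; simp
      · rw [if_neg h, if_neg (Ne.symm h)]
    rw [e1]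
    congr 1
    -- the back reference
    by_cases hs : R.sg i = 0
    · have e2 : (if k = R.rf i then R.sg i else 0) = 0 := by rw [hs]; simp
      rw [e2]
      by_cases h : i = R.m q + k
      · rw [if_pos h]
        by_cases h' : R.h q ≤ k ∧ k ≤ R.m q
        · rw [if_pos h', ← h, hs]
        · rw [if_neg h']
      · rw [if_neg h]
    · have hi0 : 0 < i := by
        rcases Nat.eq_zero_or_pos i with h0 | h0
        · subst h0; exact absurd R.sg_zero hs
        · exact h0
      by_cases h : i = R.m q + k ∧ R.h q ≤ k ∧ k ≤ R.m q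
      · obtain ⟨h1, h2, h3⟩ := h
        have := (R.blk_B h2 h3).2.2
        rw [h1, this]; simp [h2, h3]
      · have e3 : (if i = R.m q + k then (if R.h q ≤ k ∧ k ≤ R.m q then R.sg (R.m q + k) else 0)
            else 0) = 0 := by
          by_cases h1 : i = R.m q + k
          · rw [if_pos h1, if_neg (fun h2 => h ⟨h1, h2⟩)]
          · rw [if_neg h1]
        rw [e3, if_neg]
        intro hk
        obtain ⟨p, hb⟩ := R.blocks hi0
        rcases hb with ⟨d1, d2⟩ | ⟨j, hj, rfl⟩ | ⟨d1, d2⟩ | ⟨j, hj, hj2, rfl⟩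
        · exact hs (R.blk_L1 d1 d2).2
        · rw [(R.blk_A hj).2.2] at hk
          subst hk
          have hp : p ≤ q + 1 := by
            by_contra hcon
            have h5 := R.v_mono (show q + 1 + 1 ≤ p by omega)
            have h6 := R.v_succ' (q + 1)
            have h7 := R.v_lt_a p
            omega
          have h5 := R.l_le p
          have h6 := hl p
          have h7 := R.v_mono (show R.l p ≤ q by omega)
          omega
        · exact hs (R.blk_L2 d1 d2).2
        · rw [(R.blk_B hj hj2).2.2] at hk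
          subst hk
          have h8 := R.h_def p
          have hp : p ≤ q := by
            by_contra hcon
            have h5 := R.v_mono (show q + 1 ≤ p by omega)
            rcases Nat.eq_or_lt_of_le (show q + 1 ≤ p by omega) with h9 | h9
            · subst h9; omega
            · have h5 := R.v_mono (show q + 1 + 1 ≤ p by omega)
              have h6 := R.v_succ' (q + 1)
              have h7 := R.v_lt_a p
              have := R.a_le_m p
              omega
          have hp2 : ¬ p < q := by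
            intro hcon
            have h5 := R.v_mono (show p + 1 ≤ q by omega)
            have h6 := R.v_succ' p
            omega
          have hp3 : p = q := by omega
          subst hp3
          exact h ⟨rfl, hj, hj2⟩
  · rw [if_neg c1]
    have n1 : i ≠ k := by omega
    have e3 : (if i = R.m q + k then (if R.h q ≤ k ∧ k ≤ R.m q then R.sg (R.m q + k) else 0)
        else 0) = 0 := by
      by_cases h1 : i = R.m q + k
      · rw [if_pos h1, if_neg]
        rintro ⟨h2, h3⟩
        omega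
      · rw [if_neg h1]
    rw [e3, if_neg n1, sub_zero]
    by_cases c2 : R.late (q + 1) i
    · rw [if_pos c2, if_neg, neg_zero]
      intro hk
      obtain ⟨p, j, h1, h2, h3, rfl⟩ := c2
      rw [(R.blk_A h3).2.2] at hk
      subst hk
      have h6 := hl p
      have h7 := R.v_mono (show R.l p ≤ q by omega)
      omega
    · rw [if_neg c2]

/-- STEP 1: the coefficients of stage `q` -/
lemma cc_succ {q : ℕ} (hl : ∀ q', R.l q' ≠ q + 1) {k : ℕ} (hk1 : R.v q < k)
    (hk2 : k ≤ R.v (q + 1)) (x : L1) :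
    R.cc (q + 1) k x = x k * ((R.al k : ℝ) : ℂ)
      - (if R.h q ≤ k ∧ k ≤ R.m q then x (R.m q + k) * ((R.sg (R.m q + k) : ℝ) : ℂ) else 0) := by
  have hm1 : R.v (q + 1) < R.a (q + 1) := R.v_lt_a (q + 1)
  have hm2 : R.a (q + 1) ≤ R.m (q + 1) := R.a_le_m (q + 1)
  have h1 := R.cc_apply (q := q + 1) (k := k) (by omega) x
  have h2 : HasSum (fun i => if i = k then x k * ((R.al k : ℝ) : ℂ) else 0)
      (x k * ((R.al k : ℝ) : ℂ)) := hasSum_ite_eq k _
  have h3 : HasSum (fun i => if i = R.m q + k then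
      (if R.h q ≤ k ∧ k ≤ R.m q then x (R.m q + k) * ((R.sg (R.m q + k) : ℝ) : ℂ) else 0) else 0)
      (if R.h q ≤ k ∧ k ≤ R.m q then x (R.m q + k) * ((R.sg (R.m q + k) : ℝ) : ℂ) else 0) :=
    hasSum_ite_eq (R.m q + k) _
  refine h1.unique ?_
  have heq : (fun i => x i * ((R.cf (q + 1) i k : ℝ) : ℂ)) = fun i =>
      (if i = k then x k * ((R.al k : ℝ) : ℂ) else 0) - (if i = R.m q + k then
      (if R.h q ≤ k ∧ k ≤ R.m q then x (R.m q + k) * ((R.sg (R.m q + k) : ℝ) : ℂ) else 0)
        else 0) := by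
    funext i
    rw [R.cf_succ hl hk1 hk2 i]
    by_cases c1 : i = k
    · subst c1
      have hmq : ¬ (i = R.m q + i) := by
        have := R.m_def q
        omega
      rw [if_pos rfl, if_pos rfl, if_neg hmq, if_neg hmq, sub_zero, sub_zero]
    · rw [if_neg c1, if_neg c1]
      by_cases c2 : i = R.m q + k
      · subst c2
        by_cases c3 : R.h q ≤ k ∧ k ≤ R.m q
        · simp [c3]
        · simp [c3]
      · simp [c2]
  rw [heq]
  exact h2.sub h3

/-- coordinates in the block of stage `q` are tiny -/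
lemma coord_le {q : ℕ} (hl : ∀ q', R.l q' ≠ q + 1) (x : L1) {t : ℝ}
    (ht : ∑ k ∈ range (R.v (q + 1) + 1), ‖R.cc (q + 1) k x‖ ≤ t) {j : ℕ} (hj : j ≤ R.v (R.l q)) :
    ‖x (R.a q + j)‖ ≤ 2 * t := by
  have hv1 := R.v_succ' q
  have hm := R.m_def q
  have ha := R.a_def q
  have hh' := R.h_def q
  have hva := R.v_lt_a q
  set k := R.a q + j with hk
  have hk1 : k ≤ R.m q := by omega
  have hk2 : R.h q ≤ k := by omega
  have h1 := R.cc_succ hl (k := k) (by omega) (by omega) x
  have h2 := R.cc_succ hl (k := R.m q + k) (by omega) (by omega) x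
  rw [if_pos ⟨hk2, hk1⟩] at h1
  rw [if_neg (by omega), sub_zero] at h2
  have hb : ∀ i ≤ R.v (q + 1), ‖R.cc (q + 1) i x‖ ≤ t := by
    intro i hi
    refine le_trans ?_ ht
    exact single_le_sum (f := fun k => ‖R.cc (q + 1) k x‖) (fun _ _ => norm_nonneg _)
      (mem_range.2 (by omega))
  have b1 := hb k (by omega)
  have b2 := hb (R.m q + k) (by omega)
  have e1 : x k * ((R.al k : ℝ) : ℂ) = R.cc (q + 1) k x
      + x (R.m q + k) * ((R.sg (R.m q + k) : ℝ) : ℂ) := by rw [h1]; ring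
  have n1 : ‖x k‖ * R.al k ≤ ‖R.cc (q + 1) k x‖ + ‖x (R.m q + k)‖ * R.sg (R.m q + k) := by
    have : ‖x k * ((R.al k : ℝ) : ℂ)‖ = ‖x k‖ * R.al k := by
      rw [norm_mul, Complex.norm_real, Real.norm_of_nonneg (R.al_pos k).le]
    rw [← this, e1]
    refine (norm_add_le _ _).trans ?_
    rw [norm_mul, Complex.norm_real, Real.norm_of_nonneg (R.sg_nonneg _)]
  have n2 : ‖R.cc (q + 1) (R.m q + k) x‖ = ‖x (R.m q + k)‖ * R.al (R.m q + k) := by
    rw [h2, norm_mul, Complex.norm_real, Real.norm_of_nonneg (R.al_pos _).le]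
  have n3 : ‖x (R.m q + k)‖ * R.sg (R.m q + k) ≤ ‖x (R.m q + k)‖ * R.al (R.m q + k) :=
    mul_le_mul_of_nonneg_left (R.sg_le_al _) (norm_nonneg _)
  have n4 : ‖x k‖ ≤ ‖x k‖ * R.al k := le_mul_of_one_le_right (norm_nonneg _) (R.one_le_al k)
  linarith

/-! ### STEP 2 -/

/-- the head, restricted to `k ≤ v q` -/
def uu (q i : ℕ) : L1 := ∑ k ∈ range (R.v q + 1), ((R.cf q i k : ℝ) : ℂ) • R.e k

lemma uu_eq_f {q i : ℕ} (hi : i ≤ R.v q) : R.uu q i = f i := by
  have hm : R.v q ≤ R.m q := (R.v_lt_a q).le.trans (R.a_le_m q)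
  have h1 : R.rf i ≤ R.v q := by
    rcases Nat.eq_zero_or_pos i with h0 | h0
    · subst h0; simp [rf]
    · have := R.rf_lt h0; omega
  have h2 : ∀ k, ((R.cf q i k : ℝ) : ℂ) • R.e k = (if k = i then ((R.al i : ℝ) : ℂ) • R.e k else 0)
        - (if k = R.rf i then ((R.sg i : ℝ) : ℂ) • R.e k else 0) := by
    intro k
    unfold cf
    rw [if_pos (by omega)]
    push_cast
    rw [sub_smul]
    split_ifs <;> simp
  unfold uu
  rw [sum_congr rfl fun k _ => h2 k, sum_sub_distrib, sum_ite_eq', sum_ite_eq',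
    if_pos (mem_range.2 (by omega)), if_pos (mem_range.2 (by omega))]
  exact (R.f_eq i).symm

open Classical in
/-- size of the tail contributions -/
def ss (q i : ℕ) : ℝ := if i ≤ R.m q ∨ R.late q i then R.sg i else 0

lemma ss_nonneg (q i : ℕ) : 0 ≤ R.ss q i := by
  unfold ss
  split_ifs
  · exact R.sg_nonneg i
  · exact le_rfl

lemma norm_uu_le {q i : ℕ} (hi : R.v q < i) : ‖R.uu q i‖ ≤ R.ss q i := by
  unfold uu
  have h1 : ∀ k ∈ range (R.v q + 1), ‖((R.cf q i k : ℝ) : ℂ) • R.e k‖ ≤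
      if k = R.rf i then R.ss q i else 0 := by
    intro k hk
    have hk' : k ≤ R.v q := by have := mem_range.1 hk; omega
    rw [norm_smul, Complex.norm_real]
    have h2 : ‖R.cf q i k‖ ≤ if k = R.rf i then R.ss q i else 0 := by
      unfold cf ss
      by_cases c1 : i ≤ R.m q
      · rw [if_pos c1, if_pos (Or.inl c1), if_neg (show ¬ k = i by omega), zero_sub, norm_neg]
        by_cases c3 : k = R.rf i
        · rw [if_pos c3, Real.norm_of_nonneg (R.sg_nonneg i)]
        · rw [if_neg c3, norm_zero]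
      · rw [if_neg c1]
        by_cases c2 : R.late q i
        · rw [if_pos c2, if_pos (Or.inr c2), norm_neg]
          by_cases c3 : k = R.rf i
          · rw [if_pos c3, Real.norm_of_nonneg (R.sg_nonneg i)]
          · rw [if_neg c3, norm_zero]
        · rw [if_neg c2, norm_zero]
          have c4 : ¬ (i ≤ R.m q ∨ R.late q i) := fun h => h.elim c1 c2
          rw [if_neg c4]
          simp
    have h3 := R.norm_e_le_one k
    have h4 := norm_nonneg (R.e k)
    have h5 := norm_nonneg (R.cf q i k)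
    calc ‖R.cf q i k‖ * ‖R.e k‖ ≤ ‖R.cf q i k‖ * 1 := mul_le_mul_of_nonneg_left h3 h5
      _ ≤ _ := by rw [mul_one]; exact h2
  refine (norm_sum_le_of_le _ h1).trans ?_
  rw [sum_ite_eq']
  split_ifs
  · exact le_rfl
  · exact R.ss_nonneg q i

/-- the indices that contribute to the tail -/
lemma ss_cases {q i : ℕ} (hi : R.v q < i) (h : R.ss q i ≠ 0) :
    ∃ p j, q ≤ p ∧ R.l p ≤ q ∧ j ≤ R.v (R.l p) ∧ i = R.a p + j ∧
      R.ss q i = R.w j * (R.l p + 1) := by
  unfold ss at h ⊢
  by_cases c : i ≤ R.m q ∨ R.late q i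
  · rw [if_pos c] at h ⊢
    rcases c with c | c
    · have hv1 := R.v_succ' q
      have hb := R.blocks_of (q := q) (i := i) hi (by omega)
      rcases hb with ⟨d1, d2⟩ | ⟨j, hj, rfl⟩ | ⟨d1, d2⟩ | ⟨j, hj, hj2, rfl⟩
      · exact absurd (R.blk_L1 d1 d2).2 h
      · exact ⟨q, j, le_rfl, R.l_le q, hj, rfl, (R.blk_A hj).2.1⟩
      · omega
      · have := R.h_def q
        omega
    · obtain ⟨p, j, h1, h2, h3, rfl⟩ := c
      exact ⟨p, j, h1.le, h2, h3, rfl, (R.blk_A h3).2.1⟩
  · rw [if_neg c] at h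
    exact absurd rfl h

lemma ss_le (q i : ℕ) (hi : R.v q < i) : R.ss q i ≤ Bd R.v q (R.D q) := by
  by_cases h : R.ss q i = 0
  · rw [h]; exact (Bd_pos (R.one_le_D q)).le
  · obtain ⟨p, j, h1, h2, h3, rfl, h5⟩ := R.ss_cases hi h
    rw [h5]
    have h7 := R.v_mono h2
    refine le_trans ?_ (R.w_le_Bd_D (q := q) (j := j) (by omega))
    have h8 : (R.l p : ℝ) ≤ q := by exact_mod_cast h2
    have := R.w_pos j
    gcongr

lemma norm_sum_f (x : L1) (n : ℕ) : ‖∑ i ∈ range n, x i • f i‖ = ∑ i ∈ range n, ‖x i‖ := by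
  have h1 : ∀ j, (∑ i ∈ range n, x i • f i : L1) j = if j ∈ range n then x j else 0 := by
    intro j
    have : ((∑ i ∈ range n, x i • f i : L1) : ℕ → ℂ) j = ∑ i ∈ range n, (x i • f i : L1) j := by
      rw [lp.coeFn_sum, Finset.sum_apply]
    rw [this]
    have h2 : ∀ i, (x i • f i : L1) j = if j = i then x i else 0 := by
      intro i
      rw [lp.coeFn_smul, Pi.smul_apply, f_apply, smul_eq_mul]
      split_ifs <;> simp
    rw [sum_congr rfl fun i _ => h2 i, sum_ite_eq]
  rw [l1_norm]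
  rw [tsum_eq_sum (s := range n)]
  · refine sum_congr rfl fun j hj => ?_
    rw [h1 j, if_pos hj]
  · intro j hj
    rw [h1 j, if_neg hj, norm_zero]

/-- STEP 2: the main inequality -/
lemma main_ineq (q : ℕ) (x : L1) (b : ℕ → ℝ) (hb : Summable b)
    (hxb : ∀ i, R.v q < i → ‖x i‖ * R.ss q i ≤ b i) :
    ∑ i ∈ range (R.v q + 1), ‖x i‖ ≤ ∑ k ∈ range (R.v q + 1), ‖R.cc q k x‖
      + ∑' i, b (i + (R.v q + 1)) := by
  have hm : R.v q ≤ R.m q := (R.v_lt_a q).le.trans (R.a_le_m q)
  have h1 : HasSum (fun i => x i • R.uu q i) (∑ k ∈ range (R.v q + 1), R.cc q k x • R.e k) := by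
    have h2 : ∀ k ∈ range (R.v q + 1), HasSum (fun i => (x i * ((R.cf q i k : ℝ) : ℂ)) • R.e k)
        (R.cc q k x • R.e k) := by
      intro k hk
      have hk' : k ≤ R.v q := by have := mem_range.1 hk; omega
      exact (R.cc_apply (by omega) x).smul_const (R.e k)
    have h3 := hasSum_sum h2
    have h4 : (fun i => x i • R.uu q i) =
        fun i => ∑ k ∈ range (R.v q + 1), (x i * ((R.cf q i k : ℝ) : ℂ)) • R.e k := by
      funext i
      unfold uu
      rw [smul_sum]
      exact sum_congr rfl fun k _ => by rw [smul_smul]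
    rw [h4]; exact h3
  have h5 := h1.summable.sum_add_tsum_nat_add (R.v q + 1)
  rw [h1.tsum_eq] at h5
  have h6 : ∑ i ∈ range (R.v q + 1), x i • R.uu q i = ∑ i ∈ range (R.v q + 1), x i • f i := by
    refine sum_congr rfl fun i hi => ?_
    have : i ≤ R.v q := by have := mem_range.1 hi; omega
    rw [R.uu_eq_f this]
  rw [h6] at h5
  have h7 : ∑ i ∈ range (R.v q + 1), x i • f i = ∑ k ∈ range (R.v q + 1), R.cc q k x • R.e k
      - ∑' i, x (i + (R.v q + 1)) • R.uu q (i + (R.v q + 1)) := by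
    rw [← h5]; abel
  rw [← norm_sum_f, h7]
  refine (norm_sub_le _ _).trans ?_
  refine add_le_add ?_ ?_
  · refine norm_sum_le_of_le _ fun k _ => ?_
    rw [norm_smul]
    exact mul_le_of_le_one_right (norm_nonneg _) (R.norm_e_le_one k)
  · have hb' : Summable fun i => b (i + (R.v q + 1)) := (summable_nat_add_iff _).2 hb
    refine tsum_of_norm_bounded hb'.hasSum fun i => ?_
    rw [norm_smul]
    refine le_trans ?_ (hxb _ (by omega))
    exact mul_le_mul_of_nonneg_left (R.norm_uu_le (by omega)) (norm_nonneg _)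

/-- the sizes of consecutive stages -/
lemma eta_bd {q i : ℕ} (hi : i ≤ R.v (q + 1)) :
    1 / (2 ^ (q + 1) * ((R.v (q + 1) : ℝ) + 1) * Bd R.v (q + 1) (R.lam (q + 1)))
      * Bd R.v q (R.lam q) ≤ (1 / 2) ^ i := by
  have a1 := R.one_le_lam (q + 1)
  have a2 : ((q + 1 : ℕ) + 2 : ℝ) * W (R.v (q + 1 + 1)) * R.lam (q + 1)
      ≤ Bd R.v (q + 1) (R.lam (q + 1)) := Bd_ge a1
  have a3 : Bd R.v q (R.lam q) ≤ R.lam (q + 1) := by
    have b1 := R.lamBd_le_M q
    have b2 := R.one_le_lam q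
    have b3 := Bd_pos (v := R.v) (q := q) b2
    have b4 := R.M_le_rho q
    have b5 := R.rho_le_D q
    have b6 := R.D_le_lam (q + 1)
    nlinarith
  have a4 : (2 : ℝ) ^ i ≤ W (R.v (q + 1 + 1)) := by
    unfold W
    refine pow_le_pow_right₀ (by norm_num) ?_
    have := R.v_lt (q + 1)
    have h1 : i ≤ R.v (q + 1 + 1) := by omega
    exact h1.trans (Nat.le_self_pow (by norm_num) _)
  have a5 := Bd_pos (v := R.v) (q := q + 1) a1
  have a6 := Bd_pos (v := R.v) (q := q) (R.one_le_lam q)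
  have a7 : (1 : ℝ) ≤ 2 ^ (q + 1) * ((R.v (q + 1) : ℝ) + 1) := by
    have : (1 : ℝ) ≤ 2 ^ (q + 1) := one_le_pow₀ (by norm_num)
    have h2 : (1 : ℝ) ≤ (R.v (q + 1) : ℝ) + 1 := by
      have : (0 : ℝ) ≤ R.v (q + 1) := Nat.cast_nonneg _
      linarith
    exact one_le_mul_of_one_le_of_one_le this h2
  have a8 : (2 : ℝ) ^ i * Bd R.v q (R.lam q) ≤ Bd R.v (q + 1) (R.lam (q + 1)) := by
    refine le_trans ?_ a2
    have c1 : (1 : ℝ) ≤ ((q + 1 : ℕ) : ℝ) + 2 := by
      have : (0 : ℝ) ≤ ((q + 1 : ℕ) : ℝ) := Nat.cast_nonneg _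
      linarith
    have c2 := W_pos (R.v (q + 1 + 1))
    calc (2 : ℝ) ^ i * Bd R.v q (R.lam q) ≤ W (R.v (q + 1 + 1)) * R.lam (q + 1) := by gcongr
      _ ≤ (((q + 1 : ℕ) : ℝ) + 2) * (W (R.v (q + 1 + 1)) * R.lam (q + 1)) :=
          le_mul_of_one_le_left (by positivity) c1
      _ = _ := by ring
  have h2i : (0 : ℝ) < 2 ^ i := by positivity
  rw [one_div_mul_eq_div, one_div, inv_pow, div_le_iff₀ (by positivity)]
  rw [inv_mul_eq_div, le_div_iff₀ h2i]
  calc Bd R.v q (R.lam q) * 2 ^ i = 2 ^ i * Bd R.v q (R.lam q) := by ring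
    _ ≤ 1 * Bd R.v (q + 1) (R.lam (q + 1)) := by rw [one_mul]; exact a8
    _ ≤ _ := mul_le_mul_of_nonneg_right a7 a5.le

theorem head_large (R : Par) (x : L1) (hx : x ≠ 0) (L N : ℕ) :
    ∃ q, N ≤ q ∧ L ≤ R.l q ∧ 1 / (2 ^ q * (R.v q + 1) * Bd R.v q (R.lam q)) ≤
      ∑ k ∈ Finset.range (R.v q + 1), ‖R.cc q k x‖ := by
  by_contra hcon
  push Not at hcon
  obtain ⟨L', hL'⟩ := R.G1 L
  -- the pointwise bound
  set C : ℝ := Bd R.v L' (R.D L') with hC
  have hCpos : 0 < C := Bd_pos (R.one_le_D L')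
  set b : ℕ → ℝ := fun i => C * ‖x i‖ + 2 * (1 / 2) ^ i with hbdef
  have hbs : Summable b :=
    ((l1_summable x).mul_left C).add ((summable_geometric_of_lt_one (by norm_num)
      (by norm_num)).mul_left 2)
  have key : ∀ q, N ≤ q → ∀ i, R.v q < i → ‖x i‖ * R.ss q i ≤ b i := by
    intro q hq i hi
    have hb1 : 0 ≤ C * ‖x i‖ := by positivity
    have hb2 : (0 : ℝ) ≤ 2 * (1 / 2) ^ i := by positivity
    by_cases h : R.ss q i = 0
    · rw [h, mul_zero]
      exact add_nonneg hb1 hb2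
    · obtain ⟨p, j, h1, h2, h3, h4, h5⟩ := R.ss_cases hi h
      rw [h5]
      by_cases hp : L' ≤ R.l p
      · obtain ⟨g1, g2⟩ := hL' p hp
        have g3 := (hcon (p + 1) (by omega) g2).le
        have g4 := R.coord_le g1 x g3 h3
        rw [← h4] at g4
        have g5 : R.w j * (R.l p + 1) ≤ Bd R.v p (R.lam p) :=
          (R.wl_le_Bd_D h3).trans (Bd_mono (R.one_le_D p) (R.D_le_lam p))
        have g6 : i ≤ R.v (p + 1) := by
          have := R.v_succ' p
          have := R.m_def p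
          have := R.a_def p
          omega
        have g7 := R.eta_bd g6
        have g8 : 0 ≤ R.w j * ((R.l p : ℝ) + 1) := by
          have := R.w_pos j
          positivity
        push_cast at g4 g7
        calc ‖x i‖ * (R.w j * (R.l p + 1))
            ≤ (2 * (1 / (2 ^ (p + 1) * ((R.v (p + 1) : ℝ) + 1)
                * Bd R.v (p + 1) (R.lam (p + 1))))) * Bd R.v p (R.lam p) :=
              mul_le_mul g4 g5 g8 (le_trans (norm_nonneg _) g4)
          _ = 2 * (1 / (2 ^ (p + 1) * ((R.v (p + 1) : ℝ) + 1)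
                * Bd R.v (p + 1) (R.lam (p + 1))) * Bd R.v p (R.lam p)) := by ring
          _ ≤ 2 * (1 / 2) ^ i := by linarith
          _ ≤ b i := by rw [hbdef]; linarith
      · have g1 : R.w j * (R.l p + 1) ≤ C := by
          have g2 := R.v_mono (show R.l p ≤ L' by omega)
          refine le_trans ?_ (R.w_le_Bd_D (q := L') (j := j) (by omega))
          have h8 : (R.l p : ℝ) ≤ L' := by
            have : R.l p ≤ L' := by omega
            exact_mod_cast this
          have := R.w_pos j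
          gcongr
        calc ‖x i‖ * (R.w j * (R.l p + 1)) ≤ ‖x i‖ * C :=
              mul_le_mul_of_nonneg_left g1 (norm_nonneg _)
          _ = C * ‖x i‖ := mul_comm _ _
          _ ≤ b i := by rw [hbdef]; linarith
  -- a nonzero coordinate
  obtain ⟨i0, hi0⟩ : ∃ i, x i ≠ 0 := by
    by_contra hall
    push Not at hall
    exact hx (lp.ext (funext hall))
  have hpos : 0 < ‖x i0‖ := norm_pos_iff.2 hi0
  -- the tails tend to zero
  have ht := tendsto_sum_nat_add b
  have ht2 : Filter.Tendsto (fun q : ℕ => (1 / 2 : ℝ) ^ q) Filter.atTop (nhds 0) :=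
    tendsto_pow_atTop_nhds_zero_of_lt_one (by norm_num) (by norm_num)
  obtain ⟨N1, hN1⟩ := Filter.eventually_atTop.1
    (ht.eventually (gt_mem_nhds (show (0 : ℝ) < ‖x i0‖ / 2 by positivity)))
  obtain ⟨N2, hN2⟩ := Filter.eventually_atTop.1
    (ht2.eventually (gt_mem_nhds (show (0 : ℝ) < ‖x i0‖ / 2 by positivity)))
  obtain ⟨q, hq1, hq2⟩ := R.G2 L (N + N1 + N2 + i0)
  have hlv := R.le_v q
  have m1 := R.main_ineq q x b hbs (key q (by omega))
  have m2 := hcon q (by omega) hq2
  have m3 := hN1 (R.v q + 1) (by omega)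
  have m4 := hN2 q (by omega)
  have m5 : 1 / (2 ^ q * ((R.v q : ℝ) + 1) * Bd R.v q (R.lam q)) ≤ (1 / 2) ^ q := by
    have c1 := one_le_Bd (v := R.v) (q := q) (R.one_le_lam q)
    have c2 : (1 : ℝ) ≤ (R.v q : ℝ) + 1 := by
      have : (0 : ℝ) ≤ R.v q := Nat.cast_nonneg _
      linarith
    have c3 : (0 : ℝ) < 2 ^ q := by positivity
    rw [one_div, one_div, inv_pow]
    refine inv_anti₀ c3 ?_
    calc (2 : ℝ) ^ q = 2 ^ q * 1 * 1 := by ring
      _ ≤ _ := by gcongr
  have m6 : ‖x i0‖ ≤ ∑ i ∈ range (R.v q + 1), ‖x i‖ :=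
    single_le_sum (f := fun i => ‖x i‖) (fun _ _ => norm_nonneg _) (mem_range.2 (by omega))
  linarith

end Par

end Pool.Agent.W685.RT
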